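import Pool.Agent.Q127.KI.Stm

set_option autoImplicit false

namespace Pool.Agent.Q256.KI

open MeasureTheory Filter Topology Pool.Agent.Q127.KI

theorem part_const {M : Type} [MeasurableSpace M] (f : M → M) (μ : Measure M)
    (h : ∀ᵐ x ∂μ, f x = x) {m : ℕ} (p : M → Fin m) {n : ℕ} (hn : 0 < n) :
    partEntropy μ (names f p n) = partEntropy μ p := by
  unfold partEntropy
  symm
  refine Finset.sum_of_injOn (fun (b : Fin m) (_ : Fin n) => b) ?_ (fun _ _ => Finset.mem_coe.2 (Finset.mem_univ _))
    ?_ ?_
  · intro a _ b _ hab
    exact congrFun hab ⟨0, hn⟩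
  · intro a _ ha
    have h1 : μ (names f p n ⁻¹' {a}) = 0 := by
      have h2 : (names f p n ⁻¹' {a} : Set M) =ᵐ[μ] (∅ : Set M) := by
        filter_upwards [h] with x hx
        apply propext
        constructor
        · intro hxa
          apply ha
          refine ⟨p x, Finset.mem_coe.2 (Finset.mem_univ _), ?_⟩
          have h3 : names f p n x = a := hxa
          rw [← h3]
          funext i
          unfold names
          rw [Function.iterate_fixed hx]
        · intro hx'
          exact absurd hx' (Set.notMem_empty x)
      rw [measure_congr h2, measure_empty]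
    have h2 : μ.real (names f p n ⁻¹' {a}) = 0 := by
      rw [measureReal_def, h1, ENNReal.toReal_zero]
    rw [h2, Real.negMulLog_zero]
  · intro b _
    have h2 : (p ⁻¹' {b} : Set M) =ᵐ[μ] (names f p n ⁻¹' {fun _ => b} : Set M) := by
      filter_upwards [h] with x hx
      apply propext
      have h4 : names f p n x = fun _ => p x := by
        funext i
        unfold names
        rw [Function.iterate_fixed hx]
      constructor
      · intro hxa
        have h3 : p x = b := hxa
        show names f p n x = fun _ => b
        rw [h4, h3]
      · intro hxa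
        have h3 : names f p n x = fun _ => b := hxa
        rw [h4] at h3
        exact congrFun h3 ⟨0, hn⟩
    rw [measureReal_def, measureReal_def, measure_congr h2]

theorem ksz : S_ksz := by
  intro M _ f μ _ h
  have key : ∀ (m : ℕ) (p : M → Fin m),
      limsup (fun n : ℕ => ((partEntropy μ (names f p n) / n : ℝ) : EReal)) atTop = 0 := by
    intro m p
    have h1 : Tendsto (fun n : ℕ => partEntropy μ p / (n : ℝ)) atTop (𝓝 0) :=
      tendsto_const_div_atTop_nhds_zero_nat _
    have h2 : Tendsto (fun n : ℕ => ((partEntropy μ (names f p n) / n : ℝ) : EReal)) atTop (𝓝 ((0 : ℝ) : EReal)) := by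
      refine ((continuous_coe_real_ereal.tendsto 0).comp h1).congr' ?_
      filter_upwards [eventually_gt_atTop 0] with n hn
      rw [part_const f μ h p hn]
      rfl
    rw [h2.limsup_eq]
    rfl
  unfold ksEntropy
  apply le_antisymm
  · refine iSup_le fun m => iSup_le fun p => iSup_le fun _ => ?_
    rw [key]
  · refine le_iSup_of_le 1 (le_iSup_of_le (fun _ => 0) (le_iSup_of_le measurable_const ?_))
    rw [key]

end Pool.Agent.Q256.KI
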